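import Pool.Agent.Helper347.SabSmith

set_option autoImplicit false

open Finset

namespace Pool.Agent.Results.MP_91c0b7_co.TwoOff

open Pool.Agent.Helper347.Sab

/-!
Every circuit of length n - 2 of a 2-edge-connected cubic graph of order n belongs to a circuit
double cover.

If the two vertices u, v off the circuit C are not adjacent, C is dominating and
dominating_general applies (signed sum over completions of a symmetric F_2-matrix, evaluated
at -2). If they are adjacent, Smith's theorem in the graph without the edge uv gives another
circuit C' through all vertices of degree 3; a double cover of the graph without C \ C' through C'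
(induction on the number of edges, or dominating_general when C' meets u or v) is turned into
one of the graph through C by exchanging C' for C and the circuits of the symmetric difference.
-/

variable {V E : Type} [Fintype V] [DecidableEq V] [Fintype E] [DecidableEq E]

/-- The subgraph with edge set F (and all vertices) is connected. -/
def Connected (G : MGraph V E) (F : Finset E) : Prop :=
  ∀ a b : V, Relation.ReflTransGen (fun x y => ∃ e ∈ F, G.ends e = s(x, y)) a b

/-- G is connected and stays connected when any single edge is deleted (no bridge). -/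
def TwoEdgeConnected (G : MGraph V E) : Prop :=
  Connected G univ ∧ ∀ e, Connected G (univ.erase e)

/-- Strong circuit double covers for circuits of length n - 2. -/
theorem result {V E : Type} [Fintype V] [DecidableEq V] [Fintype E] [DecidableEq E]
    (G : MGraph V E) (hG : IsCubic G) (hconn : TwoEdgeConnected G)
    (C : Finset E) (hC : IsCircuit G C) (hlen : C.card + 2 = Fintype.card V) :
    ∃ F : Multiset (Finset E), IsCDC G F ∧ C ∈ F := by
  classical
  suffices h : ∃ F : Multiset (Finset E), (∀ X ∈ F, IsCircuit G X) ∧
      (∀ e, F.countP (e ∈ ·) = if e ∈ (univ : Finset E) then 2 else 0) ∧ C ∈ F by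
    obtain ⟨F, h1, h2, h3⟩ := h
    exact ⟨F, ⟨h1, fun e => by rw [h2 e, if_pos (mem_univ e)]⟩, h3⟩
  -- exactly two vertices off C
  have hsum : ∑ v, dg G C v = 2 * C.card := by
    unfold dg
    simp only [card_filter]
    rw [sum_comm]
    have : ∀ e ∈ C, ∑ v : V, (if v ∈ G.ends e then 1 else 0) = 2 := by
      intro e _
      rw [← card_filter, card_ends]
    rw [sum_congr rfl this, sum_const, smul_eq_mul, mul_comm]
  have hon : (univ.filter fun v => dg G C v = 2).card = C.card := by
    have h1 : ∑ v, dg G C v = ∑ v, (if dg G C v = 2 then 2 else 0) := by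
      refine sum_congr rfl fun v _ => ?_
      rcases hC.2.1 v with h | h <;> rw [h] <;> simp
    rw [h1, ← sum_filter, sum_const, smul_eq_mul] at hsum
    omega
  have hoffc : (univ.filter fun v => dg G C v = 0).card = 2 := by
    have h1 : (univ.filter fun v => dg G C v = 0) = (univ.filter fun v => dg G C v = 2)ᶜ := by
      ext v
      rw [mem_compl, mem_filter, mem_filter]
      have := hC.2.1 v
      constructor
      · rintro ⟨_, h⟩ ⟨_, h'⟩; omega
      · intro h
        refine ⟨mem_univ _, ?_⟩
        rcases this with h' | h'
        · exact h'
        · exact absurd ⟨mem_univ _, h'⟩ h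
    rw [h1, card_compl, hon]
    omega
  obtain ⟨u, v, huv, huvset⟩ := card_eq_two.1 hoffc
  have hmem : ∀ w, dg G C w = 0 ↔ w = u ∨ w = v := by
    intro w
    have : w ∈ (univ.filter fun v => dg G C v = 0) ↔ w ∈ ({u, v} : Finset V) := by rw [huvset]
    simpa using this
  have hu0 : dg G C u = 0 := (hmem u).2 (Or.inl rfl)
  have hv0 : dg G C v = 0 := (hmem v).2 (Or.inr rfl)
  by_cases hadj : ∃ es, G.ends es = s(u, v)
  · obtain ⟨es, hes⟩ := hadj
    refine adjacent_case G u v es hes univ.card univ C le_rfl (subset_univ _) hC (mem_univ _)
      (fun w => Or.inr (Or.inr (hG w))) (hG u) (hG v) hu0 hv0 ?_ ?_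
    · intro w h1 h2 _
      refine (hC.2.1 w).resolve_left fun h => ?_
      rcases (hmem w).1 h with h' | h'
      · exact h1 h'
      · exact h2 h'
    · -- some edge at u does not go to v
      by_contra hcon
      push Not at hcon
      have h1 : (univ.filter fun e => u ∈ G.ends e) = (univ.filter fun e => v ∈ G.ends e) := by
        apply eq_of_subset_of_card_le
        · intro e he
          rw [mem_filter] at he ⊢
          exact ⟨mem_univ _, hcon e (mem_univ _) he.2⟩
        · have h2 := hG u
          have h3 := hG v
          unfold dg at h2 h3
          omega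
      have h4 : ∀ e, u ∈ G.ends e ↔ v ∈ G.ends e := by
        intro e
        have : e ∈ (univ.filter fun e => u ∈ G.ends e) ↔
            e ∈ (univ.filter fun e => v ∈ G.ends e) := by rw [h1]
        simpa using this
      have hclosed : ∀ w, Relation.ReflTransGen
          (fun x y => ∃ e ∈ (univ : Finset E), G.ends e = s(x, y)) u w → w = u ∨ w = v := by
        intro w hw
        induction hw with
        | refl => exact Or.inl rfl
        | tail h5 h6 ih =>
          rename_i x y
          obtain ⟨e, _, he⟩ := h6
          have hx : x ∈ G.ends e := by rw [he]; simp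
          have hy : y ∈ G.ends e := by rw [he]; simp
          have hboth : u ∈ G.ends e ∧ v ∈ G.ends e := by
            rcases ih with h | h
            · rw [h] at hx; exact ⟨hx, (h4 e).1 hx⟩
            · rw [h] at hx; exact ⟨(h4 e).2 hx, hx⟩
          rw [(Sym2.mem_and_mem_iff huv).1 hboth, Sym2.mem_iff] at hy
          exact hy
      obtain ⟨e, he⟩ := hC.1
      obtain ⟨a, b, hab, hend⟩ := exists_ends G e
      have ha : a ∈ G.ends e := by rw [hend]; simp
      have hpos := dg_pos_of_mem (G := G) he ha
      have := (hmem a).2 (hclosed a (hconn.1 u a))
      omega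
  · apply dominating_general G univ C (subset_univ _) hC (fun w _ => Or.inr (hG w))
      (fun w _ => Or.inr (hG w))
    intro e _
    obtain ⟨a, b, hab, hend⟩ := exists_ends G e
    have ha : a ∈ G.ends e := by rw [hend]; simp
    have hb : b ∈ G.ends e := by rw [hend]; simp
    rcases hC.2.1 a with h1 | h1
    · rcases hC.2.1 b with h2 | h2
      · exfalso
        apply hadj
        refine ⟨e, ?_⟩
        rcases (hmem a).1 h1 with h3 | h3 <;> rcases (hmem b).1 h2 with h4 | h4
        · exact absurd (h3.trans h4.symm) hab
        · rw [hend, h3, h4]
        · rw [hend, h3, h4, Sym2.eq_swap]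
        · exact absurd (h3.trans h4.symm) hab
      · exact ⟨b, hb, h2⟩
    · exact ⟨a, ha, h1⟩

end Pool.Agent.Results.MP_91c0b7_co.TwoOff
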